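import Mathlib
import Pool.Agent.Lib.MP_4f8534_co.Codeg.Main

set_option autoImplicit false

namespace Pool.Agent.Results.MP_4f8534_co.BoundedCodegree

open Pool.Agent.Lib.MP_4f8534_co.Codeg

/-- Let `k ≥ 1` and let `G` be a finite graph in which any two distinct vertices have at most `t`
common neighbours, such that every induced subgraph of `G` is `k`-colourable or has a star
cutset.  Then `G` is `2k(t+6)³`-colourable. -/
theorem result (k t : ℕ) (hk : 1 ≤ k) (V : Type) [Finite V] (G : SimpleGraph V)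
    (ht : ∀ a b, a ≠ b → {x | G.Adj a x ∧ G.Adj b x}.ncard ≤ t)
    (hC : ∀ T : Set V, (G.induce T).Colorable k ∨
      ∃ S : Set V, S ⊆ T ∧ (∃ v ∈ S, ∀ w ∈ S, w ≠ v → G.Adj v w) ∧
        ∃ a b : ↥(T \ S), ¬ (G.induce (T \ S)).Reachable a b) :
    G.Colorable (2 * k * (t + 6) ^ 3) := by
  classical
  haveI := Fintype.ofFinite V
  have hcod : Cod G t := by
    intro a b hab
    have h1 := ht a b hab
    rw [Set.ncard_eq_toFinset_card'] at h1
    convert h1 using 2
    ext x
    simp
  have h1 := colour hk (fun U hU => exists_good hk hcod hC hU)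
  refine SimpleGraph.Colorable.mono ?_ h1
  have h2 : bd t (2 * t + 2) + 1 ≤ 2 * (t + 6) ^ 3 := by
    unfold bd
    nlinarith [Nat.zero_le t, Nat.zero_le (t ^ 2)]
  calc k * (bd t (2 * t + 2) + 1) ≤ k * (2 * (t + 6) ^ 3) := Nat.mul_le_mul_left _ h2
    _ = 2 * k * (t + 6) ^ 3 := by ring

end Pool.Agent.Results.MP_4f8534_co.BoundedCodegree
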