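import Pool.Agent.Lib.MP_4f8534_co.Card

/-!
Graphs of chromatic number above any infinite cardinal in the class of the question: triangle-free
graphs each of whose induced subgraphs, finite or infinite, is 3-colourable (in fact a forest and
one further vertex) or has a star cutset (in fact a full one: a closed neighbourhood).
-/

set_option autoImplicit false

namespace Pool.Agent.Results.MP_4f8534_co.EveryCardinal

open Cardinal Pool.Agent.Lib.MP_4f8534_co

universe u

/-- For every infinite cardinal `κ` there is a triangle-free graph on at most `2 ^ κ` vertices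
which has no proper colouring with `κ` colours, whose finite induced subgraphs have unbounded
chromatic number, and in which every induced subgraph `G[T]` is a forest plus one vertex (so
3-colourable), or has a vertex `v` whose closed neighbourhood is a star cutset of `G[T]`. -/
theorem result (κ : Cardinal.{u}) (hκ : ℵ₀ ≤ κ) :
    ∃ (V : Type u) (G : SimpleGraph V),
      #V ≤ 2 ^ κ ∧ G.CliqueFree 3 ∧
      (∀ C : Type u, #C ≤ κ → IsEmpty (G.Coloring C)) ∧
      (∀ c : ℕ, ∃ T : Set V, T.Finite ∧ ¬ (G.induce T).Colorable c) ∧
      ∀ T : Set V,
        ((∃ v, (G.induce (T \ {v})).IsAcyclic) ∧ (G.induce T).Colorable 3) ∨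
        ∃ v ∈ T, ∃ a b : ↥(T \ insert v (G.neighborSet v)),
          ¬ (G.induce (T \ insert v (G.neighborSet v))).Reachable a b := by
  induction κ using Cardinal.inductionOn with
  | _ I =>
  have : Infinite I := Cardinal.infinite_iff.2 hκ
  refine ⟨Vert I, graph I, mk_vert_le I, cliqueFree_three I, ?_, ?_, ?_⟩
  · intro C hC
    obtain ⟨e⟩ := hC
    refine ⟨fun f => ?_⟩
    exact (no_coloring I).false
      (SimpleGraph.Coloring.mk (fun v => e (f v)) (fun {a b} hab he => f.valid hab (e.injective he)))
  · exact exists_finite (graph I) I (no_coloring I)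
  · intro T
    rcases dichotomy T with ⟨v, hv⟩ | h
    · exact Or.inl ⟨⟨v, hv⟩, colorable_three _ T v hv⟩
    · exact Or.inr h

end Pool.Agent.Results.MP_4f8534_co.EveryCardinal
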