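import Mathlib
import Pool.Agent.Lib.MP_4f8534_co.Girth

set_option autoImplicit false

namespace Pool.Agent.Results.MP_4f8534_co.GirthFive

open Pool.Agent.Lib.MP_4f8534_co.Finite

/-- the hypothesis (`k`-colourable or star cutset) gives separations -/
theorem exists_sep {V : Type} {G : SimpleGraph V} {k : ℕ}
    (hC : ∀ T : Set V, (G.induce T).Colorable k ∨
      ∃ S : Set V, S ⊆ T ∧ (∃ v ∈ S, ∀ w ∈ S, w ≠ v → G.Adj v w) ∧
        ∃ a b : ↥(T \ S), ¬ (G.induce (T \ S)).Reachable a b)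
    {D X : Set V} (hD : ¬ (G.induce D).Colorable k) :
    ∃ S P Q : Set V, Sep G (D ∪ X) S P Q := by
  rcases hC (D ∪ X) with h | ⟨S, hS, hst, a, b, hab⟩
  · exfalso
    apply hD
    obtain ⟨c⟩ := h
    exact ⟨SimpleGraph.Coloring.mk (fun z => c ⟨z.1, Or.inl z.2⟩) (fun {z w} hzw =>
      c.valid (show G.Adj z.1 w.1 from hzw))⟩
  · refine ⟨S, {z | ∃ h : z ∈ (D ∪ X) \ S, (G.induce ((D ∪ X) \ S)).Reachable a ⟨z, h⟩},
      {z | ∃ h : z ∈ (D ∪ X) \ S, ¬ (G.induce ((D ∪ X) \ S)).Reachable a ⟨z, h⟩},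
      hS, hst, ⟨a.1, a.2, SimpleGraph.Reachable.refl _⟩, ⟨b.1, b.2, hab⟩, ?_, ?_, ?_⟩
    · intro z
      constructor
      · intro hz
        by_cases hr : (G.induce ((D ∪ X) \ S)).Reachable a ⟨z, hz⟩
        · exact Or.inl ⟨hz, hr⟩
        · exact Or.inr ⟨hz, hr⟩
      · rintro (⟨h, -⟩ | ⟨h, -⟩)
        · exact h
        · exact h
    · rintro z ⟨h, h1⟩ ⟨h', h2⟩
      exact h2 h1
    · rintro p ⟨hp, h1⟩ q ⟨hq, h2⟩ hpq
      have h5 : (G.induce ((D ∪ X) \ S)).Adj ⟨p, hp⟩ ⟨q, hq⟩ := hpq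
      exact h2 (h1.trans h5.reachable)

/-- every nonempty set of vertices contains a nonempty `k`-colourable part, all vertices of which
have at most two neighbours outside of the part -/
theorem exists_part {V : Type} [Finite V] {G : SimpleGraph V} (h3 : Tri G) (h4 : Quad G) {k : ℕ}
    (hk : 2 ≤ k)
    (hC : ∀ T : Set V, (G.induce T).Colorable k ∨
      ∃ S : Set V, S ⊆ T ∧ (∃ v ∈ S, ∀ w ∈ S, w ≠ v → G.Adj v w) ∧
        ∃ a b : ↥(T \ S), ¬ (G.induce (T \ S)).Reachable a b)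
    {U : Set V} (hU : U.Nonempty) :
    ∃ D : Set V, D.Nonempty ∧ D ⊆ U ∧ (G.induce D).Colorable k ∧
      ∀ d ∈ D, ∀ x ∈ U, ∀ y ∈ U, ∀ z ∈ U, x ∉ D → y ∉ D → z ∉ D →
        G.Adj d x → G.Adj d y → G.Adj d z → x = y ∨ y = z ∨ x = z := by
  classical
  have hex : ∃ m, ∃ D X, Fam G X ∧ Cut G U X D ∧ D.ncard = m :=
    ⟨_, U, ∅, Or.inl rfl, ⟨hU, subset_rfl, Set.empty_subset _, by simp,
      fun d _ u hu _ => Or.inl hu⟩, rfl⟩
  obtain ⟨D, X, hF, hD, hDm⟩ := Nat.find_spec hex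
  have hmin : ∀ D' X', Fam G X' → Cut G U X' D' → D.ncard ≤ D'.ncard := by
    intro D' X' hF' hD'
    rw [hDm]
    exact Nat.find_min' hex ⟨D', X', hF', hD', rfl⟩
  refine ⟨D, hD.1, hD.2.1, ?_, ?_⟩
  · by_contra hcol
    by_cases hA : Cut G U ∅ D
    · obtain ⟨S, P, Q, hsep⟩ := exists_sep hC (X := ∅) hcol
      exact case_empty hA hmin hsep
    · by_cases hB : ∃ m, ∃ X, Star G X ∧ Cut G U X D ∧ X.ncard = m
      · obtain ⟨X, hX, hXD, hXm⟩ := Nat.find_spec hB
        obtain ⟨S, P, Q, hsep⟩ := exists_sep hC (X := X) hcol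
        refine case_star h3 hk hXD hmin hX ?_ hcol hsep
        intro X' hX' hXD'
        rw [hXm]
        exact Nat.find_min' hB ⟨X', hX', hXD', rfl⟩
      · have hE : ∃ m, ∃ X w₀ w₁, DStar G w₀ w₁ X ∧ Cut G U X D ∧ X.ncard = m := by
          rcases hF with h | h | ⟨w₀, w₁, h⟩
          · subst h
            exact absurd hD hA
          · exact absurd ⟨_, X, h, hD, rfl⟩ hB
          · exact ⟨_, X, w₀, w₁, h, hD, rfl⟩
        obtain ⟨X, w₀, w₁, hX, hXD, hXm⟩ := Nat.find_spec hE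
        obtain ⟨S, P, Q, hsep⟩ := exists_sep hC (X := X) hcol
        refine case_dstar h3 h4 hk hXD hmin hX ?_ ?_ hcol hsep
        · intro X' w₀' w₁' hX' hXD'
          rw [hXm]
          exact Nat.find_min' hE ⟨X', w₀', w₁', hX', hXD', rfl⟩
        · intro X' hX' hXD'
          exact hB ⟨_, X', hX', hXD', rfl⟩
  · intro d hd x hx y hy z hz hxD hyD hzD hdx hdy hdz
    have hdX : d ∉ X := fun h => Set.disjoint_left.1 hD.2.2.2.1 hd h
    have hxX : x ∈ X := (hD.2.2.2.2 d hd x hx hdx).resolve_left hxD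
    have hyX : y ∈ X := (hD.2.2.2.2 d hd y hy hdy).resolve_left hyD
    have hzX : z ∈ X := (hD.2.2.2.2 d hd z hz hdz).resolve_left hzD
    rcases hF with h | h | ⟨w₀, w₁, h⟩
    · subst h
      exact hxX.elim
    · exact Or.inl (one_nbr h3 h4 h hdX hxX hyX hdx hdy)
    · have hst : ∀ w ∈ X, Star G {u | u ∈ X ∧ (u = w ∨ G.Adj w u)} := fun w hw =>
        ⟨w, ⟨hw, Or.inl rfl⟩, fun u hu huw => hu.2.resolve_left huw⟩
      have hcov : ∀ u ∈ X, u ∈ {u | u ∈ X ∧ (u = w₀ ∨ G.Adj w₀ u)} ∨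
          u ∈ {u | u ∈ X ∧ (u = w₁ ∨ G.Adj w₁ u)} := by
        intro u hu
        by_cases e0 : u = w₀
        · exact Or.inl ⟨hu, Or.inl e0⟩
        · by_cases e1 : u = w₁
          · exact Or.inr ⟨hu, Or.inl e1⟩
          · rcases h.2.2.2 u hu e0 e1 with h5 | h5
            · exact Or.inl ⟨hu, Or.inr h5⟩
            · exact Or.inr ⟨hu, Or.inr h5⟩
      have o0 := fun (a b : V) (ha : a ∈ {u | u ∈ X ∧ (u = w₀ ∨ G.Adj w₀ u)})
        (hb : b ∈ {u | u ∈ X ∧ (u = w₀ ∨ G.Adj w₀ u)}) (h1 : G.Adj d a) (h2 : G.Adj d b) =>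
          one_nbr h3 h4 (hst w₀ h.1) (fun hh => hdX hh.1) ha hb h1 h2
      have o1 := fun (a b : V) (ha : a ∈ {u | u ∈ X ∧ (u = w₁ ∨ G.Adj w₁ u)})
        (hb : b ∈ {u | u ∈ X ∧ (u = w₁ ∨ G.Adj w₁ u)}) (h1 : G.Adj d a) (h2 : G.Adj d b) =>
          one_nbr h3 h4 (hst w₁ h.2.1) (fun hh => hdX hh.1) ha hb h1 h2
      rcases hcov x hxX with hx' | hx' <;> rcases hcov y hyX with hy' | hy' <;>
        rcases hcov z hzX with hz' | hz'
      · exact Or.inl (o0 _ _ hx' hy' hdx hdy)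
      · exact Or.inl (o0 _ _ hx' hy' hdx hdy)
      · exact Or.inr (Or.inr (o0 _ _ hx' hz' hdx hdz))
      · exact Or.inr (Or.inl (o1 _ _ hy' hz' hdy hdz))
      · exact Or.inr (Or.inl (o0 _ _ hy' hz' hdy hdz))
      · exact Or.inr (Or.inr (o1 _ _ hx' hz' hdx hdz))
      · exact Or.inl (o1 _ _ hx' hy' hdx hdy)
      · exact Or.inl (o1 _ _ hx' hy' hdx hdy)

/-- Let `k ≥ 2` and let `G` be a finite graph without triangles and without 4-cycles such that
every induced subgraph of `G` is `k`-colourable or has a star cutset.  Then `G` is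
`3k`-colourable. -/
theorem result (k : ℕ) (hk : 2 ≤ k) (V : Type) [Finite V] (G : SimpleGraph V)
    (h3 : ∀ a b c, G.Adj a b → G.Adj a c → ¬ G.Adj b c)
    (h4 : ∀ a b c d, G.Adj a c → G.Adj a d → G.Adj b c → G.Adj b d → a = b ∨ c = d)
    (hC : ∀ T : Set V, (G.induce T).Colorable k ∨
      ∃ S : Set V, S ⊆ T ∧ (∃ v ∈ S, ∀ w ∈ S, w ≠ v → G.Adj v w) ∧
        ∃ a b : ↥(T \ S), ¬ (G.induce (T \ S)).Reachable a b) :
    G.Colorable (3 * k) := by
  classical
  have main : ∀ n : ℕ, ∀ U : Set V, U.ncard = n →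
      ∃ c : V → Fin k × Fin 3, ∀ u ∈ U, ∀ v ∈ U, G.Adj u v → c u ≠ c v := by
    intro n
    induction n using Nat.strong_induction_on with
    | _ n ih =>
      intro U hU
      rcases Set.eq_empty_or_nonempty U with h | h
      · subst h
        exact ⟨fun _ => (⟨0, by omega⟩, 0), fun u hu => hu.elim⟩
      · obtain ⟨D, hDne, hDU, ⟨e⟩, hdeg⟩ := exists_part h3 h4 hk hC h
        have hlt : (U \ D).ncard < n := by
          rw [← hU]
          apply Set.ncard_lt_ncard _ (Set.toFinite _)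
          refine ⟨Set.diff_subset, ?_⟩
          intro hsub
          obtain ⟨d, hd⟩ := hDne
          exact (hsub (hDU hd)).2 hd
        obtain ⟨c, hc⟩ := ih _ hlt (U \ D) rfl
        have hj : ∀ d : ↥D, ∃ j : Fin 3, ∀ u ∈ U, u ∉ D → G.Adj d.1 u → c u ≠ (e d, j) := by
          intro d
          by_contra hcon
          push Not at hcon
          obtain ⟨x, hx, hxD, hdx, hcx⟩ := hcon 0
          obtain ⟨y, hy, hyD, hdy, hcy⟩ := hcon 1
          obtain ⟨z, hz, hzD, hdz, hcz⟩ := hcon 2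
          rcases hdeg d.1 d.2 x hx y hy z hz hxD hyD hzD hdx hdy hdz with h5 | h5 | h5
          · subst h5
            rw [hcx] at hcy
            simp at hcy
          · subst h5
            rw [hcy] at hcz
            simp at hcz
          · subst h5
            rw [hcx] at hcz
            simp at hcz
        choose j hj using hj
        refine ⟨fun x => if h : x ∈ D then (e ⟨x, h⟩, j ⟨x, h⟩) else c x, ?_⟩
        intro u hu v hv huv
        by_cases h1 : u ∈ D
        · by_cases h2 : v ∈ D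
          · simp only [dif_pos h1, dif_pos h2]
            intro heq
            have h5 : e ⟨u, h1⟩ ≠ e ⟨v, h2⟩ := e.valid (show G.Adj u v from huv)
            exact h5 (congrArg Prod.fst heq)
          · simp only [dif_pos h1, dif_neg h2]
            exact (hj ⟨u, h1⟩ v hv h2 huv).symm
        · by_cases h2 : v ∈ D
          · simp only [dif_neg h1, dif_pos h2]
            exact hj ⟨v, h2⟩ u hu h1 huv.symm
          · simp only [dif_neg h1, dif_neg h2]
            exact hc u ⟨hu, h1⟩ v ⟨hv, h2⟩ huv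
  obtain ⟨c, hc⟩ := main _ Set.univ rfl
  have h1 : G.Colorable (Fintype.card (Fin k × Fin 3)) :=
    (SimpleGraph.Coloring.mk c (fun {u v} huv => hc u trivial v trivial huv)).colorable
  rw [Fintype.card_prod, Fintype.card_fin, Fintype.card_fin] at h1
  rw [mul_comm]
  exact h1

end Pool.Agent.Results.MP_4f8534_co.GirthFive
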