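import Mathlib
import Pool.Agent.Lib.MP_4f8534_co.Burling
import Pool.Agent.Lib.MP_4f8534_co.Cert
import Pool.Agent.Lib.MP_4f8534_co.Twins

set_option autoImplicit false

namespace Pool.Agent.Results.MP_4f8534_co.SmallIndependence

open Pool.Agent.Lib.MP_4f8534_co.Finite

/-- For every `k ≥ 1` there is a triangle-free graph `G` on exactly `n = k * 2 ^ (2 ^ k - 2)`
vertices, every induced subgraph of which is 3-colourable or has a star cutset, such that every
independent set of `G` has at most `2 ^ (2 ^ k - 1) = 2 n / k` vertices. -/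
theorem result : ∀ k : ℕ, 1 ≤ k → ∃ G : SimpleGraph (Fin (k * 2 ^ (2 ^ k - 2))),
    G.CliqueFree 3 ∧
    (∀ T : Set (Fin (k * 2 ^ (2 ^ k - 2))), (G.induce T).Colorable 3 ∨
      ∃ S : Set (Fin (k * 2 ^ (2 ^ k - 2))), S ⊆ T ∧ (∃ v ∈ S, ∀ w ∈ S, w ≠ v → G.Adj v w) ∧
        ∃ a b : ↥(T \ S), ¬ (G.induce (T \ S)).Reachable a b) ∧
    ∀ J : Finset (Fin (k * 2 ^ (2 ^ k - 2))), (∀ u ∈ J, ∀ v ∈ J, ¬ G.Adj u v) →
      J.card ≤ 2 ^ (2 ^ k - 1) := by
  classical
  intro k hk
  obtain ⟨V, I, _, _, B, y, z, N, hN, hz, hy, hJ⟩ := BStr.exists_cert k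
  have hcard : Fintype.card (Σ v : V, Fin (y v)) = ∑ v, y v := by
    simp
  have h2k : 2 ≤ 2 ^ k := by
    calc 2 = 2 ^ 1 := by norm_num
      _ ≤ 2 ^ k := Nat.pow_le_pow_right (by norm_num) hk
  have hNs : 2 * 2 ^ (2 ^ k - 2) = N := by
    rw [hN, ← pow_succ']
    congr 1
    omega
  have hc : Fintype.card (Σ v : V, Fin (y v)) = k * 2 ^ (2 ^ k - 2) := by
    have h1 : 2 * Fintype.card (Σ v : V, Fin (y v)) = 2 * (k * 2 ^ (2 ^ k - 2)) := by
      rw [hcard, hy, ← hNs]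
      ring
    omega
  let e : (Σ v : V, Fin (y v)) ≃ Fin (k * 2 ^ (2 ^ k - 2)) := Fintype.equivFinOfCardEq hc
  refine ⟨B.graph.comap (fun i => (e.symm i).1),
    cliqueFree_comap _ _ B.cliqueFree, inC_comap _ _ B.cliqueFree B.star, ?_⟩
  intro J hind
  rw [← hN, ← hz]
  set J' : Finset V := J.image (fun i => (e.symm i).1) with hJ'
  have h1 : J.card ≤ ∑ v ∈ J', y v := by
    calc J.card = (J.map e.symm.toEmbedding).card := (Finset.card_map _).symm
      _ ≤ (J'.sigma (fun v => (Finset.univ : Finset (Fin (y v))))).card := by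
          apply Finset.card_le_card
          intro p hp
          obtain ⟨i, hi, rfl⟩ := Finset.mem_map.1 hp
          exact Finset.mem_sigma.2
            ⟨Finset.mem_image_of_mem (fun i => (e.symm i).1) hi, Finset.mem_univ _⟩
      _ = _ := by
          rw [Finset.card_sigma]
          simp
  obtain ⟨K, hK⟩ : ∃ K : Set V, ∀ v, v ∈ K ↔ v ∈ J' := ⟨_, fun v => Iff.rfl⟩
  have h2 := hJ K (by
    intro u hu x hx hux
    obtain ⟨p, hp, rfl⟩ := Finset.mem_image.1 ((hK u).1 hu)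
    obtain ⟨q, hq, rfl⟩ := Finset.mem_image.1 ((hK x).1 hx)
    exact hind p hp q hq (Or.inl hux))
  have h3 : ∑ v ∈ J', y v = ∑ v, (if v ∈ K then 1 else 0) * y v := by
    simp only [hK, ite_mul, one_mul, zero_mul]
    rw [Finset.sum_ite_mem, Finset.univ_inter]
  have h4 : ∑ i, (if ∃ v ∈ K, v ∈ B.S i then 1 else 0) * z i ≤ ∑ i, z i := by
    apply Finset.sum_le_sum
    intro i _
    split_ifs <;> omega
  rw [h3] at h1
  exact h1.trans (h2.trans h4)

end Pool.Agent.Results.MP_4f8534_co.SmallIndependence
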